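import Pool.Agent.Lib_MP_a91488.FIN

/-!
# MP_a91488_pr: the multifractal spectrum of non-Gaussian multiplicative chaos

For fields satisfying the conditions 1 to 5 of the problem and `0 < β < √(2d)`, almost surely the measures `μ_n` converge weakly to a finite measure `μ` and for every real `α`:
the set of the points of the cube where the local dimension of `μ` is `α` has Hausdorff dimension `d - (d + β²/2 - α)²/(2β²)` (and is nonempty) if `|α - d - β²/2| ≤ β √(2d)`, and it is empty otherwise.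
-/

set_option autoImplicit false

open MeasureTheory ProbabilityTheory Filter
open scoped Topology ENNReal

namespace Pool.Agent.Results.MP_a91488_pr.Spectrum

open Pool.Agent.MChaos

/-- the conditions 1 to 5 of the problem (the fields are indexed from `0`, `‖·‖` is the Euclidean norm) -/
structure Fields (d : ℕ) {Ω : Type} [MeasurableSpace Ω] (P : Measure Ω) (X : ℕ → Ω → E d → ℝ) : Prop where
  meas : ∀ k, ∀ x ∈ cube d, Measurable (fun ω => X k ω x)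
  cont : ∀ k ω, ContinuousOn (X k ω) (cube d)
  indep : iIndepFun (fun (k : ℕ) (ω : Ω) (x : cube d) => X k ω x) P
  mean : ∀ k, ∀ x ∈ cube d, ∫ ω, X k ω x ∂P = 0
  small : ∀ ε : ℝ, 0 < ε → ∃ K : ℕ, ∀ k, K ≤ k → ∀ x ∈ cube d, ∫ ω, X k ω x ^ 2 ∂P ≤ ε
  div : ¬ Summable (fun k => ∫ ω, X k ω 0 ^ 2 ∂P)
  cov : ∃ δ C : ℝ, 0 < δ ∧ 0 < C ∧ ∀ n : ℕ, 1 ≤ n → ∀ x ∈ cube d, ∀ y ∈ cube d, ‖x - y‖ ≤ δ →
    (x ≠ y → |∑ k ∈ Finset.range n, ∫ ω, X k ω x * X k ω y ∂P - min (Real.log (1 / ‖x - y‖)) (∑ k ∈ Finset.range n, ∫ ω, X k ω 0 ^ 2 ∂P)| ≤ C) ∧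
    (x = y → |∑ k ∈ Finset.range n, ∫ ω, X k ω x * X k ω y ∂P - ∑ k ∈ Finset.range n, ∫ ω, X k ω 0 ^ 2 ∂P| ≤ C)
  third : ∃ ε C : ℝ, 0 < ε ∧ ∀ x ∈ cube d, ∀ n : ℕ, ∑ k ∈ Finset.range n, (∫ ω, |X k ω x| ^ (3 + ε) ∂P) ^ (3 / (3 + ε)) ≤ C
  lip : ∃ r₀ : ℝ, 0 < r₀ ∧ ∀ r : ℝ, r₀ ≤ r → ∃ C : ℝ, ∀ n : ℕ, 1 ≤ n → ∀ x ∈ cube d, ∀ y ∈ cube d,
    ∫ ω, |∑ k ∈ Finset.range n, (X k ω x - X k ω y)| ^ r ∂P ≤ C * Real.exp (r * ∑ k ∈ Finset.range n, ∫ ω, X k ω 0 ^ 2 ∂P) * ‖x - y‖ ^ r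
  expo : ∀ t : ℝ, ∃ C : ℝ, ∀ k, ∀ x ∈ cube d, Integrable (fun ω => Real.exp (t * X k ω x)) P ∧ ∫ ω, Real.exp (t * X k ω x) ∂P ≤ C

theorem Fields.cond {d : ℕ} {Ω : Type} [MeasurableSpace Ω] {P : Measure Ω} [IsProbabilityMeasure P] {X : ℕ → Ω → E d → ℝ} (h : Fields d P X) : Cond d P X where
  meas := h.meas
  cont := h.cont
  indep := h.indep
  mean := h.mean
  small := h.small
  div := h.div
  cov := by
    obtain ⟨δ, C, hδ, hC, H⟩ := h.cov
    refine ⟨min δ 1, C, lt_min hδ one_pos, fun n x hx y hy hxy => ?_⟩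
    rcases Nat.eq_zero_or_pos n with rfl | hn
    · constructor
      · intro hne
        have h1 : ‖x - y‖ ≤ 1 := hxy.trans (min_le_right _ _)
        have h0 : 0 < ‖x - y‖ := norm_pos_iff.mpr (sub_ne_zero.mpr hne)
        have hl : 0 ≤ Real.log (1 / ‖x - y‖) := Real.log_nonneg (by rw [le_div_iff₀ h0]; linarith)
        have hs : sig2 P X 0 = 0 := by simp [sig2]
        rw [Finset.range_zero, Finset.sum_empty, hs, min_eq_right hl]
        simpa using hC.le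
      · intro _
        simp [sig2, hC.le]
    · obtain ⟨H1, H2⟩ := H n hn x hx y hy (hxy.trans (min_le_left _ _))
      refine ⟨fun hne => H1 hne, fun he => ?_⟩
      have := H2 he
      subst he
      simpa [sig2, sq] using this
  third := h.third
  lip := by
    obtain ⟨r₀, hr₀, H⟩ := h.lip
    refine ⟨r₀, hr₀, fun r hr => ?_⟩
    obtain ⟨C, HC⟩ := H r hr
    refine ⟨|C|, fun n x hx y hy => ?_⟩
    rcases Nat.eq_zero_or_pos n with rfl | hn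
    · have hr' : r ≠ 0 := (hr₀.trans_le hr).ne'
      simp only [Finset.range_zero, Finset.sum_empty, abs_zero, Real.zero_rpow hr', integral_zero]
      positivity
    · refine (HC n hn x hx y hy).trans ?_
      unfold sig2
      gcongr
      exact le_abs_self C
  expo := h.expo

/-- **The multifractal spectrum.** -/
theorem result (d : ℕ) (hd : 1 ≤ d) (Ω : Type) [MeasurableSpace Ω] (P : Measure Ω) [IsProbabilityMeasure P] (X : ℕ → Ω → E d → ℝ) (hX : Fields d P X)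
    (β : ℝ) (hβ0 : 0 < β) (hβ : β < Real.sqrt (2 * d)) : ∀ᵐ ω ∂P, ∃ μ : Measure (E d), IsFiniteMeasure μ ∧ μ (cube d)ᶜ = 0 ∧
    (∀ f : E d → ℝ, Continuous f → Tendsto (fun n => ∫ x, f x ∂(muN P X β n ω)) atTop (𝓝 (∫ x, f x ∂μ))) ∧
    ∀ α : ℝ, (|α - d - β ^ 2 / 2| ≤ β * Real.sqrt (2 * d) → (Lev μ α).Nonempty ∧ dimH (Lev μ α) = ENNReal.ofReal (d - (d + β ^ 2 / 2 - α) ^ 2 / (2 * β ^ 2))) ∧
      (β * Real.sqrt (2 * d) < |α - d - β ^ 2 / 2| → Lev μ α = ∅) :=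
  chaos_spectrum hd hX.cond β hβ0 hβ

end Pool.Agent.Results.MP_a91488_pr.Spectrum
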